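import Pool.Agent.W707.FE.A

/-! FE-GU: a Gaussian integral is not zero; uniqueness of asymptotic coefficients. -/

set_option autoImplicit false

namespace Pool.Agent.W647.FE

open Filter MeasureTheory
open scoped Real Topology Nat

theorem gauss : Pool.Agent.W707.FE.S_GAUSS := by
  intro a b c κ hκ hf
  have hc : c.re < 0 := by
    have h := hf 0 1
    simp at h
    linarith
  have hc0 : c ≠ 0 := by
    rintro rfl
    simp at hc
  -- the functions
  set f : ℝ → ℝ → ℂ := fun s x => Complex.exp (a * s ^ 2 + b * s * x + c * x ^ 2) with hfdef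
  have hfn : ∀ s x, ‖f s x‖ ≤ Real.exp (-κ * s ^ 2) * Real.exp (-κ * x ^ 2) := by
    intro s x
    rw [hfdef, Complex.norm_exp, ← Real.exp_add]
    refine Real.exp_le_exp.2 ((hf s x).trans (le_of_eq (by ring)))
  set Fi : ℝ × ℝ × ℝ → ℂ := fun t =>
    f t.1 t.2.1 * (starRingEnd ℂ) (f t.1 (-t.2.2)) with hFi
  have hF : (fun t : ℝ × ℝ × ℝ => Complex.exp ((a * t.1 ^ 2 + b * t.1 * t.2.1 + c * t.2.1 ^ 2) +
    (starRingEnd ℂ) (a * t.1 ^ 2 - b * t.1 * t.2.2 + c * t.2.2 ^ 2))) = Fi := by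
    funext t
    rw [hFi, hfdef]
    simp only
    rw [Complex.exp_add, ← Complex.exp_conj]
    congr 3
    push_cast
    ring_nf
  rw [hF]
  have hcont : Continuous Fi := by
    rw [hFi, hfdef]
    fun_prop
  have hg : Integrable (fun x : ℝ => Real.exp (-κ * x ^ 2)) := integrable_exp_neg_mul_sq hκ
  have hint : Integrable Fi := by
    have h2 : Integrable (fun t : ℝ × ℝ × ℝ => Real.exp (-κ * t.1 ^ 2) *
        (Real.exp (-κ * t.2.1 ^ 2) * Real.exp (-κ * t.2.2 ^ 2))) :=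
      hg.mul_prod (hg.mul_prod hg)
    refine h2.mono' hcont.aestronglyMeasurable (Eventually.of_forall fun t => ?_)
    rw [hFi]
    simp only
    rw [norm_mul, RCLike.norm_conj]
    have e1 := hfn t.1 t.2.1
    have e2 := hfn t.1 (-t.2.2)
    have e3 : Real.exp (-κ * t.1 ^ 2) ≤ 1 := by
      rw [Real.exp_le_one_iff]
      nlinarith [sq_nonneg t.1]
    calc ‖f t.1 t.2.1‖ * ‖f t.1 (-t.2.2)‖
        ≤ (Real.exp (-κ * t.1 ^ 2) * Real.exp (-κ * t.2.1 ^ 2)) *
          (Real.exp (-κ * t.1 ^ 2) * Real.exp (-κ * (-t.2.2) ^ 2)) :=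
          mul_le_mul e1 e2 (norm_nonneg _) (by positivity)
      _ ≤ (Real.exp (-κ * t.1 ^ 2) * Real.exp (-κ * t.2.1 ^ 2)) *
          (1 * Real.exp (-κ * (-t.2.2) ^ 2)) := by gcongr
      _ = _ := by rw [neg_sq]; ring
  -- the inner integral
  set Gs : ℝ → ℂ := fun s => (π / -c) ^ (1 / 2 : ℂ) *
    Complex.exp (a * s ^ 2 - (b * s) ^ 2 / (4 * c)) with hGs
  have hG : ∀ s, ∫ x : ℝ, f s x = Gs s := by
    intro s
    have h1 := integral_cexp_quadratic hc (b * s) (a * (s : ℂ) ^ 2)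
    show _ = (π / -c) ^ (1 / 2 : ℂ) * Complex.exp (a * s ^ 2 - (b * s) ^ 2 / (4 * c))
    rw [← h1]
    refine integral_congr_ae (Eventually.of_forall fun x => ?_)
    simp only [hfdef]
    congr 1
    ring
  have hG0 : ∀ s, Gs s ≠ 0 := by
    intro s
    refine mul_ne_zero ?_ (Complex.exp_ne_zero _)
    have h3 : ((π : ℂ) / -c) ≠ 0 := div_ne_zero (by exact_mod_cast Real.pi_ne_zero)
      (neg_ne_zero.2 hc0)
    intro h4
    rw [Complex.cpow_eq_zero_iff] at h4
    exact h3 h4.1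
  have hin : ∀ s : ℝ, ∫ q : ℝ × ℝ, Fi (s, q) = ((‖Gs s‖ ^ 2 : ℝ) : ℂ) := by
    intro s
    have h1 : ∫ q : ℝ × ℝ, Fi (s, q) =
        (∫ x : ℝ, f s x) * ∫ y : ℝ, (starRingEnd ℂ) (f s (-y)) := by
      rw [← integral_prod_mul]
      rfl
    rw [h1, integral_conj, integral_neg_eq_self (fun y => f s y), hG, Complex.mul_conj,
      Complex.normSq_eq_norm_sq]
  have hfub : ∫ t, Fi t = ((∫ s : ℝ, ‖Gs s‖ ^ 2 : ℝ) : ℂ) := by
    have h1 : ∫ t, Fi t = ∫ s : ℝ, ∫ q : ℝ × ℝ, Fi (s, q) := by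
      have := integral_prod (μ := (volume : Measure ℝ)) (ν := (volume : Measure (ℝ × ℝ))) Fi hint
      exact this
    rw [h1, ← integral_complex_ofReal]
    exact integral_congr_ae (Eventually.of_forall fun s => hin s)
  have hGint : Integrable (fun s : ℝ => ‖Gs s‖ ^ 2) := by
    have h1 : Integrable (fun s : ℝ => ∫ q : ℝ × ℝ, Fi (s, q)) := by
      have := Integrable.integral_prod_left (μ := (volume : Measure ℝ))
        (ν := (volume : Measure (ℝ × ℝ))) (f := Fi) hint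
      exact this
    have h2 := h1.norm
    refine h2.congr (Eventually.of_forall fun s => ?_)
    simp only
    rw [hin s, Complex.norm_real, Real.norm_of_nonneg (by positivity)]
  rw [hfub]
  have hpos : 0 < ∫ s : ℝ, ‖Gs s‖ ^ 2 := by
    rw [integral_pos_iff_support_of_nonneg (fun s => by positivity) hGint]
    have h3 : Function.support (fun s : ℝ => ‖Gs s‖ ^ 2) = Set.univ := by
      ext s
      simp only [Function.mem_support, Set.mem_univ, iff_true]
      have := hG0 s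
      positivity
    rw [h3]
    simp
  exact_mod_cast hpos.ne'

lemma tendsto_inv : Tendsto (fun N : ℕ => ((N : ℂ)⁻¹)) atTop (𝓝 0) :=
  tendsto_inv_atTop_nhds_zero_nat (𝕜 := ℂ)

lemma zero_of_small (J : ℕ) : ∀ (d : ℕ → ℂ) (C : ℝ),
    (∀ᶠ N : ℕ in atTop, ‖∑ j ∈ Finset.range J, d j * ((N : ℂ)⁻¹) ^ j‖ ≤ C * ((N : ℝ)⁻¹) ^ J) →
    ∀ j < J, d j = 0 := by
  induction J with
  | zero => intro d C _ j hj; omega
  | succ J ih =>
    intro d C h
    have hlim : Tendsto (fun N : ℕ => ∑ j ∈ Finset.range (J + 1), d j * ((N : ℂ)⁻¹) ^ j) atTop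
        (𝓝 (d 0)) := by
      have h1 : Tendsto (fun N : ℕ => ∑ j ∈ Finset.range (J + 1), d j * ((N : ℂ)⁻¹) ^ j) atTop
          (𝓝 (∑ j ∈ Finset.range (J + 1), d j * (0 : ℂ) ^ j)) :=
        tendsto_finsetSum _ fun j _ => (tendsto_inv.pow j).const_mul _
      have h2 : ∑ j ∈ Finset.range (J + 1), d j * (0 : ℂ) ^ j = d 0 := by
        rw [Finset.sum_range_succ']
        simp
      rwa [h2] at h1
    have hz : Tendsto (fun N : ℕ => C * ((N : ℝ)⁻¹) ^ (J + 1)) atTop (𝓝 0) := by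
      have h1 := ((tendsto_inv_atTop_nhds_zero_nat (𝕜 := ℝ)).pow (J + 1)).const_mul C
      simpa using h1
    have hd0 : d 0 = 0 := by
      have h1 := squeeze_zero_norm' h hz
      exact tendsto_nhds_unique hlim h1
    have h2 : ∀ᶠ N : ℕ in atTop,
        ‖∑ j ∈ Finset.range J, d (j + 1) * ((N : ℂ)⁻¹) ^ j‖ ≤ C * ((N : ℝ)⁻¹) ^ J := by
      filter_upwards [h, eventually_gt_atTop 0] with N hN hN0
      have hx : (0 : ℝ) < (N : ℝ)⁻¹ := by positivity
      rw [Finset.sum_range_succ', hd0, zero_mul, add_zero] at hN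
      have h3 : ∑ j ∈ Finset.range J, d (j + 1) * ((N : ℂ)⁻¹) ^ (j + 1) =
          (∑ j ∈ Finset.range J, d (j + 1) * ((N : ℂ)⁻¹) ^ j) * (N : ℂ)⁻¹ := by
        rw [Finset.sum_mul]
        exact Finset.sum_congr rfl fun j _ => by rw [pow_succ]; ring
      rw [h3, norm_mul, norm_inv, Complex.norm_natCast, pow_succ, ← mul_assoc] at hN
      exact le_of_mul_le_mul_right hN hx
    intro j hj
    rcases Nat.eq_zero_or_pos j with rfl | hj0
    · exact hd0
    · obtain ⟨i, rfl⟩ : ∃ i, j = i + 1 := ⟨j - 1, by omega⟩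
      exact ih (fun i => d (i + 1)) C h2 i (by omega)

theorem uniq : Pool.Agent.W707.FE.S_UNIQ := by
  intro f hf
  choose a C hC using hf
  have key : ∀ J J', J ≤ J' → ∀ j < J, a J j = a J' j := by
    intro J J' hJ j hj
    have h1 : ∀ᶠ N : ℕ in atTop,
        ‖∑ j ∈ Finset.range J, (a J j - a J' j) * ((N : ℂ)⁻¹) ^ j‖ ≤
        (C J + |C J'| + ∑ j ∈ Finset.Ico J J', ‖a J' j‖) * ((N : ℝ)⁻¹) ^ J := by
      filter_upwards [hC J, hC J', eventually_gt_atTop 0] with N h1 h2 hN0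
      have hx0 : (0 : ℝ) ≤ (N : ℝ)⁻¹ := by positivity
      have hx1 : (N : ℝ)⁻¹ ≤ 1 := inv_le_one_of_one_le₀ (by exact_mod_cast hN0)
      have e1 : ∑ j ∈ Finset.range J, (a J j - a J' j) * ((N : ℂ)⁻¹) ^ j =
          -(f N - ∑ j ∈ Finset.range J, a J j * ((N : ℂ)⁻¹) ^ j) +
          (f N - ∑ j ∈ Finset.range J', a J' j * ((N : ℂ)⁻¹) ^ j) +
          ∑ j ∈ Finset.Ico J J', a J' j * ((N : ℂ)⁻¹) ^ j := by
        rw [Finset.sum_Ico_eq_sub _ hJ]
        simp only [sub_mul, Finset.sum_sub_distrib]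
        ring
      rw [e1, add_mul, add_mul]
      refine (norm_add_le _ _).trans (add_le_add ((norm_add_le _ _).trans (add_le_add ?_ ?_)) ?_)
      · rw [norm_neg]; exact h1
      · refine h2.trans ?_
        calc C J' * ((N : ℝ)⁻¹) ^ J' ≤ |C J'| * ((N : ℝ)⁻¹) ^ J' := by
              gcongr
              exact le_abs_self _
          _ ≤ |C J'| * ((N : ℝ)⁻¹) ^ J := by
              gcongr ?_ * ?_
              exact pow_le_pow_of_le_one hx0 hx1 hJ
      · rw [Finset.sum_mul]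
        refine (norm_sum_le _ _).trans (Finset.sum_le_sum fun i hi => ?_)
        rw [norm_mul, norm_pow, norm_inv, Complex.norm_natCast]
        gcongr ?_ * ?_
        exact pow_le_pow_of_le_one hx0 hx1 (Finset.mem_Ico.1 hi).1
    have h2 := zero_of_small J (fun j => a J j - a J' j) _ h1 j hj
    exact sub_eq_zero.1 h2
  refine ⟨fun j => a (j + 1) j, fun J => ⟨C J, ?_⟩⟩
  filter_upwards [hC J] with N hN
  have h1 : ∑ j ∈ Finset.range J, a (j + 1) j * ((N : ℂ)⁻¹) ^ j =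
      ∑ j ∈ Finset.range J, a J j * ((N : ℂ)⁻¹) ^ j := by
    refine Finset.sum_congr rfl fun j hj => ?_
    rw [key (j + 1) J (Finset.mem_range.1 hj) j (Nat.lt_succ_self j)]
  rw [h1]
  exact hN

end Pool.Agent.W647.FE
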